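import Mathlib
import Pool.Agent.FracEM.PM.Defs

/-!
# Project EM: exact vertex degree threshold for perfect matchings (MP_b96e21_co) and the
asymptotic Erdos matching conjecture for `x <= 1/(k+1)` (MP_bc48ca_co, MP_da3f72_co).

Statements of all parts as `Prop`s (see the specs of the subtasks EM-* for the proofs).
`Matching`, `PMon`, `deg` are the definitions of `Pool.Agent.FracEM.PM.Defs`.
-/

set_option autoImplicit false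

namespace Pool.Agent.W455.EM

open Finset Pool.Agent.FracEM.PMT

/-- number of `j`-tuples of elements of `V` whose total weight is `< T` -/
noncomputable def NN {V : Type} [Fintype V] (w : V → ℝ) (j : ℕ) (T : ℝ) : ℝ :=
  ∑ t : Fin j → V, if ∑ i, w (t i) < T then (1 : ℝ) else 0

/-- weight of the outcome `A` of independent Bernoulli variables with parameters `q i` -/
noncomputable def BW {j : ℕ} (q : Fin j → ℝ) (A : Finset (Fin j)) : ℝ :=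
  (∏ i ∈ A, q i) * ∏ i ∈ Aᶜ, (1 - q i)

/-- the `i`-th law is either the point mass at `a i = μ` (then `q i = 0`), or the law on
`a i < μ < b i` with `P(b i) = q i` and mean `μ` -/
def Law {j : ℕ} (a b q : Fin j → ℝ) (μ : ℝ) : Prop :=
  ∀ i, (q i = 0 ∧ a i = μ) ∨
    (0 < q i ∧ q i < 1 ∧ a i < μ ∧ μ < b i ∧ (1 - q i) * a i + q i * b i = μ)

/-- chosen value -/
noncomputable def ch {j : ℕ} (a b : Fin j → ℝ) (A : Finset (Fin j)) (i : Fin j) : ℝ :=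
  if i ∈ A then b i else a i

/-! ## Part S: the Samuels type bound -/

def S_TP : Prop := ∀ (V : Type) [Fintype V] [Nonempty V] (w F : V → ℝ) (μ : ℝ),
  ∑ v, w v = μ * (Fintype.card V : ℝ) →
  (∃ x, w x = μ ∧ F x * (Fintype.card V : ℝ) ≤ ∑ v, F v) ∨
  (∃ x y, w x < μ ∧ μ < w y ∧
    ((w y - μ) * F x + (μ - w x) * F y) / (w y - w x) * (Fintype.card V : ℝ) ≤ ∑ v, F v)

def S_RED : Prop := ∀ (V : Type) [Fintype V] [Nonempty V] (w : V → ℝ) (μ : ℝ),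
  ∑ v, w v = μ * (Fintype.card V : ℝ) → ∀ (j : ℕ) (Φ : (Fin j → V) → ℝ),
  ∃ (x y : Fin j → V) (q : Fin j → ℝ),
    Law (fun i => w (x i)) (fun i => w (y i)) q μ ∧
    (∑ A : Finset (Fin j), BW q A * Φ (fun i => if i ∈ A then y i else x i)) *
      (Fintype.card V : ℝ) ^ j ≤ ∑ t, Φ t

def S_MON : Prop := ∀ x y : ℝ, 1 ≤ x → x < y → (1 - 1 / y) ^ (y - 1) < (1 - 1 / x) ^ (x - 1)

def S_INN : Prop := ∀ (j : ℕ) (a b q : Fin j → ℝ) (μ T : ℝ), μ ≤ 1 → (j : ℝ) + 1 ≤ T →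
  (∀ i, 0 ≤ a i) → Law a b q μ →
  (1 - 1 / T) ^ j ≤ ∑ A : Finset (Fin j), BW q A * (if ∑ i, ch a b A i < T then 1 else 0)

def S_INN3 : Prop := ∀ (j : ℕ), 1 ≤ j → ∀ γ : ℝ, 0 < γ → γ ≤ 1 / 4 → ∃ ρ : ℝ, 0 < ρ ∧
  ∀ (a b q : Fin j → ℝ) (μ : ℝ), μ ≤ 1 → (∀ i, 0 ≤ a i) → Law a b q μ →
  (1 - 1 / ((j : ℝ) + 1)) ^ j + ρ * ∑ A : Finset (Fin j), BW q A *
      (if ∀ i, γ ≤ ch a b A i ∧ ch a b A i ≤ (j : ℝ) + 1 - γ then 1 else 0) ≤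
    ∑ A : Finset (Fin j), BW q A * (if ∑ i, ch a b A i < (j : ℝ) + 1 then 1 else 0)

def S_S2 : Prop := ∀ (V : Type) [Fintype V] [Nonempty V] (w : V → ℝ) (j : ℕ) (T : ℝ),
  (∀ v, 0 ≤ w v) → ∑ v, w v ≤ (Fintype.card V : ℝ) → (j : ℝ) + 1 ≤ T →
  (Fintype.card V : ℝ) ^ j * (1 - 1 / T) ^ j ≤ NN w j T

def S_S2e : Prop := ∀ (V : Type) [Fintype V] [Nonempty V] (w : V → ℝ) (j : ℕ) (T ε : ℝ),
  (∀ v, 0 ≤ w v) → 0 < ε → 1 ≤ ε * (Fintype.card V : ℝ) →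
  ∑ v, w v ≤ (1 + ε) * (Fintype.card V : ℝ) → (j : ℝ) + 1 ≤ T →
  (Fintype.card V : ℝ) ^ j * (1 - (1 + 2 * ε) ^ j * (1 - (1 - 1 / T) ^ j)) ≤ NN w j T

def S_S3 : Prop := ∀ (j : ℕ), 1 ≤ j → ∀ γ : ℝ, 0 < γ → γ ≤ 1 / 4 → ∃ ρ : ℝ, 0 < ρ ∧
  ∀ (V : Type) [Fintype V] [Nonempty V] (w : V → ℝ),
  (∀ v, 0 ≤ w v) → ∑ v, w v ≤ (Fintype.card V : ℝ) →
  (Fintype.card V : ℝ) ^ j * (1 - 1 / ((j : ℝ) + 1)) ^ j +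
      ρ * (((univ : Finset V).filter (fun v => γ ≤ w v ∧ w v ≤ (j : ℝ) + 1 - γ)).card : ℝ) ^ j ≤
    NN w j ((j : ℝ) + 1)

/-! ## Part L: linear programming, counting -/

def S_LPD : Prop := ∀ (k : ℕ), 2 ≤ k → ∀ η : ℝ, 0 < η → ∃ C : ℝ, 0 < C ∧
  ∀ (n : ℕ) (W : Finset (Fin n)) (H : Finset (Finset (Fin n))),
    (∀ e ∈ H, e.card = k) → (∀ e ∈ H, e ⊆ W) → ∀ m : ℝ,
    (∀ M ⊆ H, Matching M → (M.card : ℝ) ≤ m) →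
    ∃ (y : Fin n → ℝ) (P : Finset (Fin n × Fin n)), (∀ v, 0 ≤ y v) ∧
      ∑ v ∈ W, y v ≤ (1 + η) * m ∧ (P.card : ℝ) ≤ C * W.card ∧
      (∀ p ∈ P, p.1 ≠ p.2 ∧ p.1 ∈ W ∧ p.2 ∈ W) ∧
      ∀ e ∈ H, (∃ p ∈ P, p.1 ∈ e ∧ p.2 ∈ e) ∨ 1 ≤ ∑ v ∈ e, y v

def S_CNT : Prop := ∀ (n : ℕ) (W : Finset (Fin n)) (w : Fin n → ℝ) (j : ℕ) (T : ℝ),
  (((W.powersetCard j).filter (fun S => T ≤ ∑ v ∈ S, w v)).card : ℝ) * (j.factorial : ℝ) ≤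
    (W.card : ℝ) ^ j - NN (fun v : {x // x ∈ W} => w v.1) j T

def S_QNT : Prop := ∀ (k n : ℕ) (W : Finset (Fin n)) (y : Fin n → ℝ) (β : ℝ), 1 ≤ k →
  W.Nonempty → 0 < β → β ≤ 1 → (∀ v, 0 ≤ y v) →
  ∑ v ∈ W, y v ≤ (1 - β) * (W.card : ℝ) / k →
  ∃ z : Fin n → ℝ, (∀ v, 0 ≤ z v ∧ z v ≤ 1) ∧ ∑ v ∈ W, z v ≤ (W.card : ℝ) / k ∧
    β / 2 * (W.card : ℝ) ≤ ((W.filter (fun v => z v = 0)).card : ℝ) ∧
    ∀ e ⊆ W, e.card = k → 1 ≤ ∑ v ∈ e, y v → 1 ≤ ∑ v ∈ e, z v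

/-- near perfect matchings outside the extremal case -/
def S_NP : Prop := ∀ (k : ℕ), 3 ≤ k → ∀ γ : ℝ, 0 < γ → ∃ α : ℝ, 0 < α ∧ ∀ β : ℝ, 0 < β →
  ∃ n0 : ℕ, ∀ (n : ℕ) (W : Finset (Fin n)), n0 ≤ W.card → ∀ H : Finset (Finset (Fin n)),
    (∀ e ∈ H, e.card = k) → (∀ e ∈ H, e ⊆ W) →
    (∀ v ∈ W, (1 - (1 - 1 / (k : ℝ)) ^ (k - 1) - α) * (((W.card - 1).choose (k - 1) : ℕ) : ℝ) ≤
      (deg H v : ℝ)) →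
    (∀ B ⊆ W, (1 - 1 / (k : ℝ) - γ) * (W.card : ℝ) ≤ (B.card : ℝ) →
      γ * (W.card : ℝ) ^ k < ((H.filter (fun e => e ⊆ B)).card : ℝ)) →
    ∃ M ⊆ H, Matching M ∧ ((W \ M.biUnion id).card : ℝ) ≤ β * W.card

/-! ## Part A: absorbing matchings with linear capacity -/

def S_SEL : Prop := ∀ (Ω I : Type) [Fintype Ω] [Nonempty Ω] [Fintype I] [DecidableEq Ω]
  (𝒜 : I → Finset Ω) (R : Ω → Ω → Prop) [DecidableRel R] (c κ : ℝ) (m : ℕ),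
  0 < c → c ≤ 1 → (∀ x, R x x) → (∀ i, c * (Fintype.card Ω : ℝ) ≤ ((𝒜 i).card : ℝ)) →
  (((univ : Finset (Ω × Ω)).filter (fun p => R p.1 p.2)).card : ℝ) ≤
    κ * (Fintype.card Ω : ℝ) ^ 2 → 16 * κ * m ≤ c →
  2 * (Fintype.card I : ℝ) * ((2 : ℝ) ^ (c / 2) * (1 - c / 2)) ^ m < 1 →
  ∃ F : Finset Ω, F.card ≤ m ∧ (∀ x ∈ F, ∀ y ∈ F, x ≠ y → ¬ R x y) ∧
    ∀ i, c * m / 4 ≤ ((F ∩ 𝒜 i).card : ℝ)

def S_ABS : Prop := ∀ (k : ℕ), 2 ≤ k → ∀ η : ℝ, 0 < η → ∀ θ : ℝ, 0 < θ → ∃ β : ℝ, 0 < β ∧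
  ∃ n0 : ℕ, ∀ n : ℕ, n0 ≤ n → ∀ H : Finset (Finset (Fin n)), (∀ e ∈ H, e.card = k) →
    (∀ v, (1 / 2 + η) * (((n - 1).choose (k - 1) : ℕ) : ℝ) ≤ (deg H v : ℝ)) →
    ∃ Z : Finset (Fin n), (Z.card : ℝ) ≤ θ * n ∧ PMon H Z ∧
      ∀ U : Finset (Fin n), Disjoint U Z → k ∣ U.card → (U.card : ℝ) ≤ β * n → PMon H (Z ∪ U)

/-! ## Part E: the extremal case -/

/-- disjoint choices, greedily -/
def S_GRE : Prop := ∀ (n k : ℕ), 2 ≤ k → ∀ (S : Finset (Fin n)) (X : Fin n → Finset (Finset (Fin n))),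
  (∀ v ∈ S, ∀ T ∈ X v, T.card = k - 1) → (∀ v ∈ S, k * S.card * n ^ (k - 2) < (X v).card) →
  ∃ f : Fin n → Finset (Fin n), (∀ v ∈ S, f v ∈ X v) ∧
    ∀ u ∈ S, ∀ v ∈ S, u ≠ v → Disjoint (f u) (f v)

/-- Daykin-Haggkvist for `k`-partite hypergraphs with minimum vertex degree near `N^(k-1)` -/
def S_DHK : Prop := ∀ (k : ℕ), 2 ≤ k → ∃ ε : ℝ, 0 < ε ∧ ∃ N0 : ℕ, ∀ N : ℕ, N0 ≤ N →
  ∀ R : (Fin k → Fin N) → Prop,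
  (∀ (i : Fin k) (x : Fin N), (({t : Fin k → Fin N | t i = x ∧ ¬ R t}.ncard : ℕ) : ℝ) ≤
    ε * (N : ℝ) ^ (k - 1)) →
  ∃ σ : Fin k → Equiv.Perm (Fin N), ∀ j : Fin N, R (fun i => σ i j)

/-- almost all sets with one vertex in `A` and `k-1` in `B` are edges -/
def S_TYP : Prop := ∀ (k : ℕ), 3 ≤ k → ∃ ε : ℝ, 0 < ε ∧ ∃ n0 : ℕ, ∀ n : ℕ, n0 ≤ n →
  ∀ (H : Finset (Finset (Fin n))) (A B : Finset (Fin n)), Disjoint A B →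
  B.card = (k - 1) * A.card → (n : ℝ) ≤ 2 * k * A.card →
  (∀ v ∈ A ∪ B, ((((A ∪ B).powersetCard k).filter
    (fun e => v ∈ e ∧ (e ∩ A).card = 1 ∧ e ∉ H)).card : ℝ) ≤ ε * (n : ℝ) ^ (k - 1)) →
  PMon H (A ∪ B)

/-- the structure of near extremal hypergraphs; `B` is the complement of `A` -/
structure Str (k n : ℕ) (H : Finset (Finset (Fin n))) (A : Finset (Fin n)) (α γ : ℝ) : Prop where
  uni : ∀ e ∈ H, e.card = k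
  size : |(A.card : ℝ) - n / k| ≤ γ * n
  mis : ∀ v ∉ A, ((((univ.erase v).powersetCard (k - 1)).filter
    (fun X => ¬ Disjoint X A ∧ insert v X ∉ H)).card : ℝ) ≤ α * (n : ℝ) ^ (k - 1)
  low : ∀ v ∉ A, (((((univ \ A).erase v).powersetCard (k - 1)).filter
    (fun X => insert v X ∈ H)).card : ℝ) ≤ α * (n : ℝ) ^ (k - 1)
  high : ∀ a ∈ A, α / 4 * (n : ℝ) ^ (k - 1) ≤
    ((((univ \ A).powersetCard (k - 1)).filter (fun X => insert a X ∈ H)).card : ℝ)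
  typ : ((A.filter (fun a => γ * (n : ℝ) ^ (k - 1) <
    ((((univ \ A).powersetCard (k - 1)).filter (fun X => insert a X ∉ H)).card : ℝ))).card : ℝ) ≤
    γ * n

/-- the exact minimum degree condition -/
def Dg (k n : ℕ) (H : Finset (Finset (Fin n))) : Prop :=
  ∀ v, (n - 1).choose (k - 1) + 1 ≤ deg H v + (n - n / k).choose (k - 1)

def S_EXS : Prop := ∀ (k : ℕ), 3 ≤ k → ∃ α0 : ℝ, 0 < α0 ∧ ∀ α : ℝ, 0 < α → α ≤ α0 →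
  ∀ γ : ℝ, 0 < γ → ∃ γ' : ℝ, 0 < γ' ∧ ∃ n0 : ℕ, ∀ n : ℕ, n0 ≤ n → k ∣ n →
  ∀ H : Finset (Finset (Fin n)), (∀ e ∈ H, e.card = k) → Dg k n H →
  ∀ B : Finset (Fin n), B.card = n - n / k →
    ((H.filter (fun e => e ⊆ B)).card : ℝ) ≤ γ' * (n : ℝ) ^ k →
    ∃ A : Finset (Fin n), Str k n H A α γ

/-- fewer than `n/k` vertices in `A`: a matching of `n/k - |A|` edges outside `A` -/
def S_EXB1 : Prop := ∀ (k : ℕ), 3 ≤ k → ∃ α0 : ℝ, 0 < α0 ∧ ∃ γ0 : ℝ, 0 < γ0 ∧ ∃ n0 : ℕ,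
  ∀ n : ℕ, n0 ≤ n → k ∣ n → ∀ (H : Finset (Finset (Fin n))) (A : Finset (Fin n)) (α γ : ℝ),
  0 < α → α ≤ α0 → 0 < γ → γ ≤ γ0 → Str k n H A α γ → Dg k n H → A.card ≤ n / k →
  ∃ M ⊆ H, Matching M ∧ M.card = n / k - A.card ∧ ∀ e ∈ M, Disjoint e A

/-- more than `n/k` vertices in `A`: a matching of `|A| - n/k` edges with two vertices in `A` -/
def S_EXB2 : Prop := ∀ (k : ℕ), 3 ≤ k → ∃ α0 : ℝ, 0 < α0 ∧ ∃ γ0 : ℝ, 0 < γ0 ∧ ∃ n0 : ℕ,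
  ∀ n : ℕ, n0 ≤ n → k ∣ n → ∀ (H : Finset (Finset (Fin n))) (A : Finset (Fin n)) (α γ : ℝ),
  0 < α → α ≤ α0 → 0 < γ → γ ≤ γ0 → Str k n H A α γ → n / k ≤ A.card →
  ∃ M ⊆ H, Matching M ∧ M.card = A.card - n / k ∧ ∀ e ∈ M, (e ∩ A).card = 2

/-- finish: after the removal of a small set `D` the proportions are right -/
def S_EXF : Prop := ∀ (k : ℕ), 3 ≤ k → ∃ α0 : ℝ, 0 < α0 ∧ ∀ α : ℝ, 0 < α → α ≤ α0 →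
  ∃ γ0 : ℝ, 0 < γ0 ∧ ∃ n0 : ℕ, ∀ n : ℕ, n0 ≤ n →
  ∀ (H : Finset (Finset (Fin n))) (A D : Finset (Fin n)) (γ : ℝ), 0 < γ → γ ≤ γ0 →
  Str k n H A α γ → (D.card : ℝ) ≤ k * γ * n →
  ((univ \ A) \ D).card = (k - 1) * (A \ D).card → PMon H (univ \ D)

def S_EXT : Prop := ∀ (k : ℕ), 3 ≤ k → ∃ γ : ℝ, 0 < γ ∧ ∃ n0 : ℕ, ∀ n : ℕ, n0 ≤ n → k ∣ n →
  ∀ H : Finset (Finset (Fin n)), (∀ e ∈ H, e.card = k) → Dg k n H →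
  ∀ B : Finset (Fin n), B.card = n - n / k →
    ((H.filter (fun e => e ⊆ B)).card : ℝ) ≤ γ * (n : ℝ) ^ k → PMon H univ

/-! ## Part F: final assembly -/

def S_LOW : Prop := ∀ (k n : ℕ), 2 ≤ k → k ∣ n → 0 < n →
  ∃ H : Finset (Finset (Fin n)), (∀ e ∈ H, e.card = k) ∧
    (∀ v, (n - 1).choose (k - 1) ≤ deg H v + (n - n / k).choose (k - 1)) ∧ ¬ PMon H univ

def S_ASY : Prop := ∀ (k : ℕ), 2 ≤ k → ∀ ε : ℝ, 0 < ε → ∃ n0 : ℕ, ∀ n : ℕ, n0 ≤ n →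
  (((n - n / k).choose (k - 1) : ℕ) : ℝ) ≤
    ((1 - 1 / (k : ℝ)) ^ (k - 1) + ε) * (((n - 1).choose (k - 1) : ℕ) : ℝ)

def S_UPP : Prop := ∀ (k : ℕ), 3 ≤ k → ∃ n0 : ℕ, ∀ n : ℕ, n0 ≤ n → k ∣ n →
  ∀ H : Finset (Finset (Fin n)), (∀ e ∈ H, e.card = k) → Dg k n H → PMon H univ

/-! ## Erdos matching conjecture, asymptotically, `x <= 1/(k+1)` -/

def S_EMCU : Prop := ∀ (k : ℕ), 2 ≤ k → ∀ x : ℝ, 0 < x → x ≤ 1 / ((k : ℝ) + 1) →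
  ∀ ε : ℝ, 0 < ε → ∃ n0 : ℕ, ∀ n : ℕ, n0 ≤ n → ∀ H : Finset (Finset (Fin n)),
  (∀ e ∈ H, e.card = k) → (∀ M ⊆ H, Matching M → (M.card : ℝ) ≤ x * n) →
  (H.card : ℝ) ≤ (1 - (1 - x) ^ k + ε) * ((n.choose k : ℕ) : ℝ)

/-- fractional version: an explicit bound for all `n` -/
def S_FRC : Prop := ∀ (k n : ℕ), 1 ≤ k → 1 ≤ n → ∀ (H : Finset (Finset (Fin n))) (y : Fin n → ℝ) (x : ℝ),
  (∀ e ∈ H, e.card = k) → (∀ v, 0 ≤ y v) → (∀ e ∈ H, 1 ≤ ∑ v ∈ e, y v) → ∑ v, y v ≤ x * n →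
  0 < x → x ≤ 1 / ((k : ℝ) + 1) →
  (H.card : ℝ) * (k.factorial : ℝ) ≤ (1 - (1 - x) ^ k) * (n : ℝ) ^ k

end Pool.Agent.W455.EM
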